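import Pool.Agent.helper2.BB.Spec

namespace BB

theorem C8 : C8_stmt := by
  intro m hm
  rcases Nat.lt_or_ge m 4 with h | h
  · have : m = 3 := by omega
    subst this
    decide
  · obtain ⟨k, rfl⟩ := Nat.exists_eq_add_of_le h
    have e1 : 4 + k + 1 = k + 5 := by omega
    have e2 : 4 + k + 3 = k + 7 := by omega
    have e3 : 4 + k + 2 = k + 6 := by omega
    rw [e1, e2, e3]
    have h1 := Nat.descFactorial_eq_factorial_mul_choose (k + 5) 3
    have h2 := Nat.descFactorial_eq_factorial_mul_choose (k + 7) 7
    have h3 := Nat.descFactorial_eq_factorial_mul_choose (k + 6) 5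
    have hA : 0 < Nat.choose (k + 5) 3 := Nat.choose_pos (by omega)
    have hB : 0 < Nat.choose (k + 6) 5 := Nat.choose_pos (by omega)
    generalize Nat.choose (k + 5) 3 = A at *
    generalize Nat.choose (k + 7) 7 = D at *
    generalize Nat.choose (k + 6) 5 = B at *
    have h1' : (k + 3) * ((k + 4) * (k + 5)) = 6 * A := by
      rw [← show Nat.factorial 3 = 6 from rfl, ← h1]
      simp only [Nat.descFactorial]
      rw [show k + 5 - 2 = k + 3 by omega, show k + 5 - 1 = k + 4 by omega, show k + 5 - 0 = k + 5 by omega]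
      ring
    have h2' : (k + 1) * ((k + 2) * ((k + 3) * ((k + 4) * ((k + 5) * ((k + 6) * (k + 7)))))) = 5040 * D := by
      rw [← show Nat.factorial 7 = 5040 from rfl, ← h2]
      simp only [Nat.descFactorial]
      rw [show k + 7 - 6 = k + 1 by omega, show k + 7 - 5 = k + 2 by omega, show k + 7 - 4 = k + 3 by omega,
        show k + 7 - 3 = k + 4 by omega, show k + 7 - 2 = k + 5 by omega, show k + 7 - 1 = k + 6 by omega,
        show k + 7 - 0 = k + 7 by omega]
      ring
    have h3' : (k + 2) * ((k + 3) * ((k + 4) * ((k + 5) * (k + 6)))) = 120 * B := by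
      rw [← show Nat.factorial 5 = 120 from rfl, ← h3]
      simp only [Nat.descFactorial]
      rw [show k + 6 - 4 = k + 2 by omega, show k + 6 - 3 = k + 3 by omega, show k + 6 - 2 = k + 4 by omega,
        show k + 6 - 1 = k + 5 by omega, show k + 6 - 0 = k + 6 by omega]
      ring
    clear h1 h2 h3
    have q1 : 20 * B = (k + 6) * (k + 2) * A := by nlinarith
    have q2 : 42 * D = (k + 7) * (k + 1) * B := by nlinarith
    have hAB : 0 < A * B := Nat.mul_pos hA hB
    have r1 : 840 * (A * D) = 20 * ((k + 7) * (k + 1)) * (A * B) := by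
      calc 840 * (A * D) = 20 * A * (42 * D) := by ring
        _ = _ := by rw [q2]; ring
    have r2 : 840 * B ^ 2 = 42 * ((k + 6) * (k + 2)) * (A * B) := by
      calc 840 * B ^ 2 = 42 * B * (20 * B) := by ring
        _ = _ := by rw [q1]; ring
    have r3 : 20 * ((k + 7) * (k + 1)) < 42 * ((k + 6) * (k + 2)) := by nlinarith
    have r4 := Nat.mul_lt_mul_of_pos_right r3 hAB
    omega

end BB
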